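import Pool.Agent.Lib.MP_758516_anR.Main

/-!
# Common pavings of uniformly homeomorphic spaces: spaces represented in their subspaces of finite codimension
-/

namespace Pool.Agent.Results.MP_758516_an.SelfRepresented

open Pool.Agent.CPavR

universe u v

/-- Let `X` be a separable real normed space such that for some `lam` every finite-dimensional subspace of `X`
embeds with constant `lam` into every closed subspace of finite codimension of `X`, and let `Y` be ANY separable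
real normed space uniformly homeomorphic to `X`. Then `X` and `Y` have a common paving. -/
theorem result (X : Type u) (Y : Type v)
    [NormedAddCommGroup X] [NormedSpace ℝ X] [TopologicalSpace.SeparableSpace X]
    [NormedAddCommGroup Y] [NormedSpace ℝ Y] [TopologicalSpace.SeparableSpace Y]
    (hX : ∃ lam : ℝ, ∀ E : Submodule ℝ X, FiniteDimensional ℝ E →
      ∀ X₀ : Submodule ℝ X, IsClosed (X₀ : Set X) → FiniteDimensional ℝ (X ⧸ X₀) →
        ∃ T : E →ₗ[ℝ] X, ∀ e : E, T e ∈ X₀ ∧ ‖e‖ ≤ ‖T e‖ ∧ ‖T e‖ ≤ lam * ‖e‖)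
    (hΦ : Nonempty (UniformEquiv X Y)) :
    ∃ (E : ℕ → Submodule ℝ X) (F : ℕ → Submodule ℝ Y),
      Monotone E ∧ Monotone F ∧
      (∀ n, FiniteDimensional ℝ ↥(E n)) ∧ (∀ n, FiniteDimensional ℝ ↥(F n)) ∧
      Dense (⋃ n, (E n : Set X)) ∧ Dense (⋃ n, (F n : Set Y)) ∧
      ∃ (T : ∀ n, ↥(E n) ≃L[ℝ] ↥(F n)) (C : ℝ), ∀ n,
        ‖((T n : ↥(E n) →L[ℝ] ↥(F n)))‖ *
          ‖(((T n).symm : ↥(F n) →L[ℝ] ↥(E n)))‖ ≤ C := by
  obtain ⟨lam, h⟩ := hX
  exact paving_of_asr ⟨lam, fun E hE => asEmb_of_codim (h E hE)⟩ hΦ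

end Pool.Agent.Results.MP_758516_an.SelfRepresented
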