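import Pool.Agent.Lib.MP_758516_an.Main

/-!
Common pavings of uniformly homeomorphic spaces: the superreflexive case.
-/

namespace Pool.Agent.Results.MP_758516_an.Superreflexive

open Pool.Agent.CPav

universe u v

/-- Let `X` be a separable real normed space which is superreflexive, in the sense that it has an
equivalent uniformly convex norm and an equivalent uniformly smooth norm, and let `Y` be ANY separable
real normed space uniformly homeomorphic to `X`. Then `X` and `Y` have a common paving. -/
theorem result (X : Type u) (Y : Type v)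
    [NormedAddCommGroup X] [NormedSpace ℝ X] [TopologicalSpace.SeparableSpace X]
    [NormedAddCommGroup Y] [NormedSpace ℝ Y] [TopologicalSpace.SeparableSpace Y]
    (hc : IsoUniformlyConvex X) (hs : IsoUniformlySmooth X)
    (hΦ : Nonempty (UniformEquiv X Y)) :
    ∃ (E : ℕ → Submodule ℝ X) (F : ℕ → Submodule ℝ Y),
      Monotone E ∧ Monotone F ∧
      (∀ n, FiniteDimensional ℝ ↥(E n)) ∧ (∀ n, FiniteDimensional ℝ ↥(F n)) ∧
      Dense (⋃ n, (E n : Set X)) ∧ Dense (⋃ n, (F n : Set Y)) ∧
      ∃ (T : ∀ n, ↥(E n) ≃L[ℝ] ↥(F n)) (C : ℝ), ∀ n,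
        ‖((T n : ↥(E n) →L[ℝ] ↥(F n)))‖ *
          ‖(((T n).symm : ↥(F n) →L[ℝ] ↥(E n)))‖ ≤ C :=
  main X Y hc hs hΦ

end Pool.Agent.Results.MP_758516_an.Superreflexive
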